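import Mathlib

namespace Pool.Agent.Helper38.Dice

open Finset

/-- Hall-type pairing of the faces. -/
lemma exists_perm {F : Type*} [Fintype F] {R : Type*} [DecidableEq R] (l : F → R) :
    ∃ σ : Equiv.Perm F, (∀ f, l f ≠ l (σ f)) ∨ (∃ r, ∀ f, l f = r ∨ l (σ f) = r) := by
  classical
  by_cases h : ∀ r, 2 * #{f | l f = r} ≤ Fintype.card F
  · have hall : ∀ s : Finset F, #s ≤ #(s.biUnion (fun f => ({g | l f ≠ l g} : Finset F))) := by
      intro s
      by_cases hs : ∃ a ∈ s, ∃ b ∈ s, l a ≠ l b
      · obtain ⟨a, ha, b, hb, hab⟩ := hs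
        have : s.biUnion (fun f => ({g | l f ≠ l g} : Finset F)) = univ := by
          ext g
          simp only [mem_biUnion, mem_filter, mem_univ, true_and, iff_true]
          by_cases hg : l a = l g
          · exact ⟨b, hb, fun h' => hab (hg.trans h'.symm)⟩
          · exact ⟨a, ha, hg⟩
        rw [this]
        exact card_le_univ s
      · push Not at hs
        rcases s.eq_empty_or_nonempty with rfl | ⟨a, ha⟩
        · simp
        · have h1 : s ⊆ ({f | l f = l a} : Finset F) := by
            intro b hb
            simp only [mem_filter, mem_univ, true_and]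
            exact hs b hb a ha
          have h2 : ({g | l a ≠ l g} : Finset F) ⊆
              s.biUnion (fun f => ({g | l f ≠ l g} : Finset F)) := by
            intro g hg
            simp only [mem_biUnion]
            exact ⟨a, ha, hg⟩
          have h3 : #({f | l f = l a} : Finset F) + #({g | l a ≠ l g} : Finset F)
              = Fintype.card F := by
            have := Finset.card_filter_add_card_filter_not (s := (univ : Finset F))
              (fun f => l f = l a)
            rw [Finset.card_univ] at this
            rw [← this]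
            congr 2
            ext g
            simp [eq_comm]
          have h4 := h (l a)
          have h5 := card_le_card h1
          have h6 := card_le_card h2
          omega
    obtain ⟨f, hf, hf'⟩ := (Finset.all_card_le_biUnion_card_iff_exists_injective _).1 hall
    refine ⟨Equiv.ofBijective f (Finite.injective_iff_bijective.1 hf), Or.inl ?_⟩
    intro x
    have := hf' x
    simpa using this
  · push Not at h
    obtain ⟨r, hr⟩ := h
    have hall : ∀ s : Finset F, #s ≤ #(s.biUnion
        (fun f => ({g | l f = r ∨ l g = r} : Finset F))) := by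
      intro s
      by_cases hs : ∃ a ∈ s, l a = r
      · obtain ⟨a, ha, har⟩ := hs
        have : s.biUnion (fun f => ({g | l f = r ∨ l g = r} : Finset F)) = univ := by
          ext g
          simp only [mem_biUnion, mem_filter, mem_univ, true_and, iff_true]
          exact ⟨a, ha, Or.inl har⟩
        rw [this]
        exact card_le_univ s
      · push Not at hs
        rcases s.eq_empty_or_nonempty with rfl | ⟨a, ha⟩
        · simp
        · have h1 : s ⊆ ({f | ¬ l f = r} : Finset F) := by
            intro b hb
            simp only [mem_filter, mem_univ, true_and]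
            exact hs b hb
          have h2 : ({g | l g = r} : Finset F) ⊆
              s.biUnion (fun f => ({g | l f = r ∨ l g = r} : Finset F)) := by
            intro g hg
            simp only [mem_biUnion, mem_filter, mem_univ, true_and] at hg ⊢
            exact ⟨a, ha, Or.inr hg⟩
          have h3 := Finset.card_filter_add_card_filter_not (s := (univ : Finset F))
              (fun f => l f = r)
          rw [Finset.card_univ] at h3
          have h5 := card_le_card h1
          have h6 := card_le_card h2
          omega
    obtain ⟨f, hf, hf'⟩ := (Finset.all_card_le_biUnion_card_iff_exists_injective _).1 hall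
    refine ⟨Equiv.ofBijective f (Finite.injective_iff_bijective.1 hf), Or.inr ⟨r, ?_⟩⟩
    intro x
    have := hf' x
    simpa using this

/-- Cauchy-Davenport for two-element sets. -/
lemma card_range_sum {p : ℕ} (hp : p.Prime) (k : ℕ) (a b : Fin k → ZMod p) (hab : ∀ i, a i ≠ b i) :
    min p (k + 1) ≤ #(univ.image (fun e : Fin k → Bool => ∑ i, if e i then b i else a i)) := by
  have := Fact.mk hp
  induction k with
  | zero => simp
  | succ k ih =>
    have ih' := ih (fun i => a i.succ) (fun i => b i.succ) (fun i => hab i.succ)
    set S := univ.image (fun e : Fin k → Bool => ∑ i, if e i then b i.succ else a i.succ) with hS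
    have hSne : S.Nonempty := by
      rw [hS]; simp
    have hT : ({a 0, b 0} : Finset (ZMod p)).Nonempty := ⟨a 0, by simp⟩
    have hTc : #({a 0, b 0} : Finset (ZMod p)) = 2 := card_pair (hab 0)
    have cd := ZMod.cauchy_davenport hp hT hSne
    rw [hTc] at cd
    open Pointwise in
    have hsub : ({a 0, b 0} : Finset (ZMod p)) + S ⊆
        univ.image (fun e : Fin (k+1) → Bool => ∑ i, if e i then b i else a i) := by
      intro x hx
      rw [Finset.mem_add] at hx
      obtain ⟨y, hy, z, hz, rfl⟩ := hx
      rw [hS, mem_image] at hz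
      obtain ⟨e, -, rfl⟩ := hz
      rw [mem_image]
      simp only [mem_insert, mem_singleton] at hy
      rcases hy with rfl | rfl
      · exact ⟨Fin.cons false e, mem_univ _, by simp [Fin.sum_univ_succ]⟩
      · exact ⟨Fin.cons true e, mem_univ _, by simp [Fin.sum_univ_succ]⟩
    have := card_le_card hsub
    omega

lemma two_le_count {p : ℕ} (hp : p.Prime) (a b : Fin p → ZMod p)
    (h : (∀ i, a i ≠ b i) ∨ (∃ r, ∀ i, a i = r ∨ b i = r)) :
    2 ≤ #({e : Fin p → Bool | ∑ i, (if e i then b i else a i) = 0} : Finset _) := by
  have := Fact.mk hp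
  obtain ⟨k, rfl⟩ : ∃ k, p = k + 1 := ⟨p - 1, by have := hp.pos; omega⟩
  by_cases hne : ∀ i, a i ≠ b i
  · have hc := card_range_sum hp k (fun i => a i.succ) (fun i => b i.succ) (fun i => hne i.succ)
    rw [min_self] at hc
    have huniv : univ.image (fun e : Fin k → Bool => ∑ i, if e i then b i.succ else a i.succ)
        = (univ : Finset (ZMod (k+1))) := by
      apply Finset.eq_univ_of_card
      have h1 : Fintype.card (ZMod (k+1)) = k+1 := ZMod.card _
      have h2 := card_le_univ
        (univ.image (fun e : Fin k → Bool => ∑ i, if e i then b i.succ else a i.succ))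
      omega
    have hex : ∀ t : ZMod (k+1), ∃ e : Fin k → Bool,
        (∑ i, if e i then b i.succ else a i.succ) = t := by
      intro t
      have : t ∈ univ.image (fun e : Fin k → Bool => ∑ i, if e i then b i.succ else a i.succ) := by
        rw [huniv]; exact mem_univ _
      simpa using this
    obtain ⟨e0, he0⟩ := hex (- a 0)
    obtain ⟨e1, he1⟩ := hex (- b 0)
    have hsub : ({Fin.cons false e0, Fin.cons true e1} : Finset (Fin (k+1) → Bool)) ⊆
        ({e : Fin (k+1) → Bool | ∑ i, (if e i then b i else a i) = 0} : Finset _) := by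
      intro x hx
      simp only [mem_insert, mem_singleton] at hx
      simp only [mem_filter, mem_univ, true_and]
      rcases hx with rfl | rfl
      · simp [Fin.sum_univ_succ, he0]
      · simp [Fin.sum_univ_succ, he1]
    have hcard : #({Fin.cons false e0, Fin.cons true e1} : Finset (Fin (k+1) → Bool)) = 2 := by
      apply card_pair
      intro h'
      have := congrFun h' 0
      simp at this
    have := card_le_card hsub
    omega
  · obtain ⟨r, hr⟩ := h.resolve_left hne
    push Not at hne
    obtain ⟨j, hj⟩ := hne
    classical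
    -- choose the value `r` everywhere
    let e0 : Fin (k+1) → Bool := fun i => decide (a i ≠ r)
    have he0 : ∀ i, (if e0 i then b i else a i) = r := by
      intro i
      by_cases hi : a i = r
      · simp [e0, hi]
      · simp [e0, hi, (hr i).resolve_left hi]
    let e1 : Fin (k+1) → Bool := Function.update e0 j (!(e0 j))
    have hjr : a j = r := by
      rcases hr j with h' | h'
      · exact h'
      · rw [hj]; exact h'
    have he1 : ∀ i, (if e1 i then b i else a i) = r := by
      intro i
      by_cases hi : i = j
      · subst hi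
        have h1 : b i = r := by rw [← hj]; exact hjr
        simp [h1, hjr]
      · have : e1 i = e0 i := by simp [e1, hi]
        rw [this]; exact he0 i
    have hsum : ∑ _i : Fin (k+1), r = (0 : ZMod (k+1)) := by
      rw [Finset.sum_const, Finset.card_univ, Fintype.card_fin, nsmul_eq_mul,
        ZMod.natCast_self, zero_mul]
    have hsub : ({e0, e1} : Finset (Fin (k+1) → Bool)) ⊆
        ({e : Fin (k+1) → Bool | ∑ i, (if e i then b i else a i) = 0} : Finset _) := by
      intro x hx
      simp only [mem_insert, mem_singleton] at hx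
      simp only [mem_filter, mem_univ, true_and]
      rcases hx with rfl | rfl
      · rw [Finset.sum_congr rfl (fun i _ => he0 i)]; exact hsum
      · rw [Finset.sum_congr rfl (fun i _ => he1 i)]; exact hsum
    have hcard : #({e0, e1} : Finset (Fin (k+1) → Bool)) = 2 := by
      apply card_pair
      intro h'
      have := congrFun h' j
      simp [e1] at this
    have := card_le_card hsub
    omega

/-- The bound for a prime number of dice, in counting form. -/
lemma prime_bound {p : ℕ} (hp : p.Prime) {F : Type*} [Fintype F] (l : F → ZMod p) :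
    2 * Fintype.card F ^ p ≤ 2 ^ p * #({w : Fin p → F | ∑ i, l (w i) = 0} : Finset _) := by
  classical
  obtain ⟨σ, hσ⟩ := exists_perm l
  -- the flips
  let flip (e : Fin p → Bool) : (Fin p → F) ≃ (Fin p → F) :=
    Equiv.piCongrRight (fun i => if e i then σ else Equiv.refl F)
  have hflip : ∀ e w i, l (flip e w i) = if e i then l (σ (w i)) else l (w i) := by
    intro e w i
    simp only [flip, Equiv.piCongrRight_apply, Pi.map_apply]
    by_cases h : e i <;> simp [h]
  have h1 : ∀ e : Fin p → Bool,
      #({w : Fin p → F | ∑ i, l (flip e w i) = 0} : Finset _)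
        = #({w : Fin p → F | ∑ i, l (w i) = 0} : Finset _) := by
    intro e
    apply Finset.card_bij (fun w _ => flip e w)
    · intro w hw
      simpa using hw
    · intro a _ b _ h
      exact (flip e).injective h
    · intro b hb
      refine ⟨(flip e).symm b, ?_, by simp⟩
      simpa using hb
  have h2 : ∀ w : Fin p → F,
      2 ≤ #({e : Fin p → Bool | ∑ i, l (flip e w i) = 0} : Finset _) := by
    intro w
    have := two_le_count hp (fun i => l (w i)) (fun i => l (σ (w i))) (by
      rcases hσ with h | ⟨r, h⟩
      · exact Or.inl (fun i => h _)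
      · exact Or.inr ⟨r, fun i => h _⟩)
    simpa only [hflip] using this
  have h3 : ∑ e : Fin p → Bool, #({w : Fin p → F | ∑ i, l (flip e w i) = 0} : Finset _)
      = ∑ w : Fin p → F, #({e : Fin p → Bool | ∑ i, l (flip e w i) = 0} : Finset _) := by
    simp only [Finset.card_filter]
    exact Finset.sum_comm
  simp only [h1] at h3
  rw [Finset.sum_const, Finset.card_univ, Fintype.card_fun, Fintype.card_bool,
    Fintype.card_fin, smul_eq_mul] at h3
  rw [h3]
  calc 2 * Fintype.card F ^ p = ∑ _w : Fin p → F, 2 := by
        rw [Finset.sum_const, Finset.card_univ, Fintype.card_fun, Fintype.card_fin, smul_eq_mul,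
          mul_comm]
    _ ≤ _ := Finset.sum_le_sum (fun w _ => h2 w)

/-- The counting form of the bound for a number `n` of dice. -/
def Bound (n : ℕ) : Prop :=
  ∀ (F : Type) [Fintype F] (l : F → ℤ),
    2 * Fintype.card F ^ n ≤ 2 ^ n * Nat.card {w : Fin n → F // (n : ℤ) ∣ ∑ i, l (w i)}

lemma bound_prime {p : ℕ} (hp : p.Prime) : Bound p := by
  classical
  intro F _ l
  have := prime_bound hp (fun f => (l f : ZMod p))
  rw [Nat.card_eq_fintype_card, Fintype.card_subtype]
  convert this using 5
  rename_i w
  rw [← ZMod.intCast_zmod_eq_zero_iff_dvd _ p]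
  push_cast
  rfl

lemma bound_one : Bound 1 := by
  intro F _ l
  simp [Nat.card_eq_fintype_card, Fintype.card_subtype]

lemma bound_mul {m h : ℕ} (hm : Bound m) (hh : Bound h) : Bound (m * h) := by
  classical
  intro F _ l
  -- new faces: `m`-tuples with sum divisible by `m`
  let G := {w : Fin m → F // (m : ℤ) ∣ ∑ i, l (w i)}
  let l' : G → ℤ := fun g => (∑ i, l (g.1 i)) / m
  have hl' : ∀ g : G, (m : ℤ) * l' g = ∑ i, l (g.1 i) := fun g => Int.mul_ediv_cancel' g.2
  have h1 : 2 * Fintype.card F ^ m ≤ 2 ^ m * Fintype.card G := by
    have := hm F l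
    rwa [Nat.card_eq_fintype_card] at this
  have h2 := hh G l'
  -- injection
  let φ : {v : Fin h → G // (h : ℤ) ∣ ∑ j, l' (v j)} →
      {w : Fin (m * h) → F // ((m * h : ℕ) : ℤ) ∣ ∑ i, l (w i)} := fun v =>
    ⟨fun i => (v.1 (finProdFinEquiv.symm i).2).1 (finProdFinEquiv.symm i).1, by
      have hs : ∑ i : Fin (m * h), l ((v.1 (finProdFinEquiv.symm i).2).1 (finProdFinEquiv.symm i).1)
          = ∑ x : Fin m × Fin h, l ((v.1 x.2).1 x.1) :=
        Equiv.sum_comp finProdFinEquiv.symm (fun x : Fin m × Fin h => l ((v.1 x.2).1 x.1))
      rw [hs, Fintype.sum_prod_type_right]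
      simp only [← hl']
      rw [← Finset.mul_sum]
      push_cast
      exact mul_dvd_mul_left _ v.2⟩
  have hφ : Function.Injective φ := by
    intro v v' hvv
    apply Subtype.ext
    funext j
    apply Subtype.ext
    funext i
    have := congrFun (congrArg Subtype.val hvv) (finProdFinEquiv (i, j))
    simpa [φ] using this
  have h3 := Nat.card_le_card_of_injective φ hφ
  set A := Nat.card {v : Fin h → G // (h : ℤ) ∣ ∑ j, l' (v j)} with hA
  set B := Nat.card {w : Fin (m * h) → F // ((m * h : ℕ) : ℤ) ∣ ∑ i, l (w i)} with hB
  have h4 : (2 * Fintype.card F ^ m) ^ h ≤ (2 ^ m * Fintype.card G) ^ h := Nat.pow_le_pow_left h1 h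
  -- 2^h * |F|^(mh) ≤ 2^(mh) |G|^h ; 2 |G|^h ≤ 2^h A
  have h5 : 2 ^ h * (2 * Fintype.card F ^ (m * h)) ≤ 2 ^ h * (2 ^ (m * h) * B) := by
    calc 2 ^ h * (2 * Fintype.card F ^ (m * h)) = 2 * (2 * Fintype.card F ^ m) ^ h := by
          rw [mul_pow, ← pow_mul]; ring
      _ ≤ 2 * (2 ^ m * Fintype.card G) ^ h := Nat.mul_le_mul_left _ h4
      _ = 2 ^ (m * h) * (2 * Fintype.card G ^ h) := by rw [mul_pow, ← pow_mul]; ring
      _ ≤ 2 ^ (m * h) * (2 ^ h * A) := Nat.mul_le_mul_left _ h2
      _ ≤ 2 ^ (m * h) * (2 ^ h * B) := Nat.mul_le_mul_left _ (Nat.mul_le_mul_left _ h3)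
      _ = 2 ^ h * (2 ^ (m * h) * B) := by ring
  exact Nat.le_of_mul_le_mul_left h5 (by positivity)

theorem bound_all (n : ℕ) (hn : n ≠ 0) : Bound n := by
  induction n using Nat.recOnMul with
  | zero => exact absurd rfl hn
  | one => exact bound_one
  | prime p hp => exact bound_prime hp
  | mul a b ha hb =>
    have ha0 : a ≠ 0 := fun h => hn (by simp [h])
    have hb0 : b ≠ 0 := fun h => hn (by simp [h])
    exact bound_mul (ha ha0) (hb hb0)

end Pool.Agent.Helper38.Dice
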