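import Mathlib
import Pool.Agent.Helper38.DiceCore

namespace Pool.Agent.Helper38.Dice

open Finset MeasureTheory ProbabilityTheory Filter Topology

/-- The bound for natural number weights on `ZMod n`. -/
lemma weights_nat {n : ℕ} [NeZero n] (N : ZMod n → ℕ) :
    2 * (∑ r, N r) ^ n ≤ 2 ^ n * ∑ x : Fin n → ZMod n, if ∑ i, x i = 0 then ∏ i, N (x i) else 0 := by
  classical
  have hb := bound_all n (NeZero.ne n) (Σ r : ZMod n, Fin (N r)) (fun f => (f.1.val : ℤ))
  have hcard : Fintype.card (Σ r : ZMod n, Fin (N r)) = ∑ r, N r := by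
    simp
  rw [hcard] at hb
  refine hb.trans (Nat.mul_le_mul_left _ ?_)
  rw [Nat.card_eq_fintype_card, Fintype.card_subtype]
  -- fibre over the residues
  have h1 : ∀ w : Fin n → (Σ r : ZMod n, Fin (N r)),
      ((n : ℤ) ∣ ∑ i, ((w i).1.val : ℤ)) ↔ ∑ i, (w i).1 = 0 := by
    intro w
    rw [← ZMod.intCast_zmod_eq_zero_iff_dvd _ n]
    push_cast
    simp
  simp only [h1]
  rw [Finset.card_eq_sum_card_fiberwise
    (f := fun w : Fin n → (Σ r : ZMod n, Fin (N r)) => fun i => (w i).1) (t := univ)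
    (fun _ _ => by simp)]
  apply le_of_eq
  apply Finset.sum_congr rfl
  intro x _
  rw [Finset.filter_filter]
  by_cases hx : ∑ i, x i = 0
  · rw [if_pos hx]
    have : ({w : Fin n → (Σ r : ZMod n, Fin (N r)) | ∑ i, (w i).1 = 0 ∧ (fun i => (w i).1) = x}
        : Finset _) = ({w : Fin n → (Σ r : ZMod n, Fin (N r)) | (fun i => (w i).1) = x}
        : Finset _) := by
      ext w
      simp only [mem_filter, mem_univ, true_and, and_iff_right_iff_imp]
      rintro rfl
      exact hx
    rw [this]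
    have e : {w : Fin n → (Σ r : ZMod n, Fin (N r)) // (fun i => (w i).1) = x} ≃
        (∀ i, Fin (N (x i))) :=
      { toFun := fun w i => ⟨((w.1 i).2 : ℕ), by
            have h3 := congrFun w.2 i
            have h2 := (w.1 i).2.2
            exact lt_of_lt_of_eq h2 (congrArg N h3)⟩
        invFun := fun v => ⟨fun i => ⟨x i, v i⟩, rfl⟩
        left_inv := by
          rintro ⟨w, rfl⟩
          rfl
        right_inv := by
          intro v
          rfl }
    rw [← Fintype.card_subtype, Fintype.card_congr e, Fintype.card_pi]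
    simp
  · rw [if_neg hx]
    rw [Finset.card_eq_zero]
    ext w
    simp only [mem_filter, mem_univ, true_and, notMem_empty, iff_false]
    rintro ⟨h, rfl⟩
    exact hx h

/-- The bound for nonnegative real weights on `ZMod n`. -/
lemma weights_real {n : ℕ} [NeZero n] (w : ZMod n → ℝ) (hw : ∀ r, 0 ≤ w r) :
    2 * (∑ r, w r) ^ n ≤ 2 ^ n * ∑ x : Fin n → ZMod n, if ∑ i, x i = 0 then ∏ i, w (x i) else 0 := by
  -- approximate by `⌊K w⌋ / K`
  let u : ℕ → ZMod n → ℝ := fun K r => (⌊(K : ℝ) * w r⌋₊ : ℝ) / K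
  have hu : ∀ r, Tendsto (fun K => u K r) atTop (𝓝 (w r)) := by
    intro r
    have h := tendsto_nat_floor_mul_div_atTop (R := ℝ) (hw r)
    have h2 := h.comp (tendsto_natCast_atTop_atTop (R := ℝ))
    refine h2.congr ?_
    intro K
    simp [u, mul_comm]
  have key : ∀ K : ℕ, 0 < K → 2 * (∑ r, u K r) ^ n ≤
      2 ^ n * ∑ x : Fin n → ZMod n, if ∑ i, x i = 0 then ∏ i, u K (x i) else 0 := by
    intro K hK
    have h := weights_nat (n := n) (fun r => ⌊(K : ℝ) * w r⌋₊)
    have h' : (2 : ℝ) * (∑ r, (⌊(K : ℝ) * w r⌋₊ : ℝ)) ^ n ≤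
        2 ^ n * ∑ x : Fin n → ZMod n, if ∑ i, x i = 0 then ∏ i, (⌊(K : ℝ) * w (x i)⌋₊ : ℝ) else 0 := by
      exact_mod_cast h
    have hK' : (0 : ℝ) < K := by exact_mod_cast hK
    have e1 : (∑ r, u K r) ^ n = (∑ r, (⌊(K : ℝ) * w r⌋₊ : ℝ)) ^ n / (K : ℝ) ^ n := by
      simp only [u]
      rw [← Finset.sum_div, div_pow]
    have e2 : (∑ x : Fin n → ZMod n, if ∑ i, x i = 0 then ∏ i, u K (x i) else 0)
        = (∑ x : Fin n → ZMod n, if ∑ i, x i = 0 then ∏ i, (⌊(K : ℝ) * w (x i)⌋₊ : ℝ) else 0)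
          / (K : ℝ) ^ n := by
      rw [Finset.sum_div]
      apply Finset.sum_congr rfl
      intro x _
      by_cases hx : ∑ i, x i = 0
      · simp only [hx, if_true, u]
        rw [Finset.prod_div_distrib]
        simp
      · simp [hx]
    rw [e1, e2, ← mul_div_assoc, ← mul_div_assoc]
    gcongr
  have hL : Tendsto (fun K => 2 * (∑ r, u K r) ^ n) atTop (𝓝 (2 * (∑ r, w r) ^ n)) := by
    apply Tendsto.const_mul
    apply Tendsto.pow
    exact tendsto_finsetSum _ (fun r _ => hu r)
  have hR : Tendsto (fun K => (2 : ℝ) ^ n *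
      ∑ x : Fin n → ZMod n, if ∑ i, x i = 0 then ∏ i, u K (x i) else 0) atTop
      (𝓝 (2 ^ n * ∑ x : Fin n → ZMod n, if ∑ i, x i = 0 then ∏ i, w (x i) else 0)) := by
    apply Tendsto.const_mul
    apply tendsto_finsetSum
    intro x _
    by_cases hx : ∑ i, x i = 0
    · simp only [hx, if_true]
      exact tendsto_finsetProd _ (fun i _ => hu (x i))
    · simp only [hx, if_false]
      exact tendsto_const_nhds
  refine le_of_tendsto_of_tendsto hL hR ?_
  filter_upwards [eventually_gt_atTop 0] with K hK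
  exact key K hK

theorem main {Ω : Type*} [MeasurableSpace Ω] (P : Measure Ω) [IsProbabilityMeasure P]
    (n : ℕ) (hn : 1 ≤ n) (X : Fin n → Ω → ℤ) (hmeas : ∀ i, Measurable (X i))
    (hindep : iIndepFun X P) (hident : ∀ i j, IdentDistrib (X i) (X j) P P) :
    (1 / 2 : ℝ) ^ (n - 1) ≤ P.real {ω | (n : ℤ) ∣ ∑ i, X i ω} := by
  classical
  have : NeZero n := ⟨by omega⟩
  have i0 : Fin n := ⟨0, by omega⟩
  let A : ZMod n → Set ℤ := fun r => {z | (z : ZMod n) = r}
  let w : ZMod n → ℝ := fun r => P.real (X i0 ⁻¹' A r)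
  have hA : ∀ r, MeasurableSet (A r) := fun r => MeasurableSet.of_discrete
  have hw : ∀ i r, P.real (X i ⁻¹' A r) = w r := by
    intro i r
    have := (hident i i0).measure_mem_eq (hA r)
    simp only [Measure.real, w, this]
  have hprod : ∀ x : Fin n → ZMod n,
      P.real (⋂ i, X i ⁻¹' A (x i)) = ∏ i, w (x i) := by
    intro x
    have := hindep.meas_iInter (s := fun i => X i ⁻¹' A (x i))
      (fun i => ⟨A (x i), hA _, rfl⟩)
    rw [Measure.real, this, ENNReal.toReal_prod]
    apply Finset.prod_congr rfl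
    intro i _
    exact hw i (x i)
  have hset : {ω | (n : ℤ) ∣ ∑ i, X i ω} =
      ⋃ x ∈ ({x : Fin n → ZMod n | ∑ i, x i = 0} : Finset _), ⋂ i, X i ⁻¹' A (x i) := by
    ext ω
    simp only [Set.mem_ofPred_eq, Set.mem_iUnion, mem_filter, mem_univ, true_and, Set.mem_iInter,
      Set.mem_preimage, A, exists_prop]
    constructor
    · intro h
      refine ⟨fun i => (X i ω : ZMod n), ?_, fun i => rfl⟩
      rw [← ZMod.intCast_zmod_eq_zero_iff_dvd _ n] at h
      rw [← h]
      push_cast
      rfl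
    · rintro ⟨x, hx, hx'⟩
      rw [← ZMod.intCast_zmod_eq_zero_iff_dvd _ n]
      push_cast
      rw [← hx]
      exact Finset.sum_congr rfl (fun i _ => hx' i)
  have hmeas' : ∀ x : Fin n → ZMod n, MeasurableSet (⋂ i, X i ⁻¹' A (x i)) :=
    fun x => MeasurableSet.iInter (fun i => hmeas i (hA _))
  have hP : P.real {ω | (n : ℤ) ∣ ∑ i, X i ω} =
      ∑ x : Fin n → ZMod n, if ∑ i, x i = 0 then ∏ i, w (x i) else 0 := by
    rw [hset, measureReal_biUnion_finset]
    · rw [Finset.sum_filter]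
      apply Finset.sum_congr rfl
      intro x _
      rw [hprod]
    · intro x _ y _ hxy
      rw [Function.onFun, Set.disjoint_left]
      intro ω h1 h2
      apply hxy
      funext i
      have h1' := Set.mem_iInter.1 h1 i
      have h2' := Set.mem_iInter.1 h2 i
      simp only [Set.mem_preimage, A, Set.mem_ofPred_eq] at h1' h2'
      exact h1'.symm.trans h2'
    · intro x _
      exact hmeas' x
  have hsum : ∑ r, w r = 1 := by
    have : (⋃ r ∈ (univ : Finset (ZMod n)), X i0 ⁻¹' A r) = Set.univ := by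
      ext ω
      simp [A]
    have h2 : P.real (⋃ r ∈ (univ : Finset (ZMod n)), X i0 ⁻¹' A r) = ∑ r, w r := by
      rw [measureReal_biUnion_finset]
      · intro r _ s _ hrs
        rw [Function.onFun, Set.disjoint_left]
        intro ω h1 h2
        simp only [Set.mem_preimage, A, Set.mem_ofPred_eq] at h1 h2
        exact hrs (h1.symm.trans h2)
      · intro r _
        exact hmeas i0 (hA r)
    rw [← h2, this]
    simp
  have hmain := weights_real (n := n) w (fun r => measureReal_nonneg)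
  rw [hsum, ← hP, one_pow, mul_one] at hmain
  obtain ⟨k, rfl⟩ : ∃ k, n = k + 1 := ⟨n - 1, by omega⟩
  rw [Nat.add_sub_cancel]
  have h2k : (0 : ℝ) < 2 ^ k := by positivity
  rw [one_div, inv_pow, inv_le_iff_one_le_mul₀ h2k]
  have : (2 : ℝ) ^ (k + 1) = 2 * 2 ^ k := by ring
  rw [this] at hmain
  linarith

end Pool.Agent.Helper38.Dice
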